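import Pool.Agent.J4.H35.AMi

set_option autoImplicit false

/-!
# Products of `2k` values of zeta on the critical line, averaged over an arbitrary measure

For every `k` the product `∏_j ζ(1/2 + i(t + a_j)) ζ(1/2 - i(t + b_j))` of `2k` values (`2k = 8` in the problem) is
integrated against `v(t) dμ(t)`, where `μ` is an arbitrary measure on `[T, T + H]` with mass at most `K` on every interval
of length one (a sequence of points, the ordinates of the zeros of zeta with `K = C log T`, a singular measure, ...) and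
`v` is an arbitrary weight in `L²(μ)`. Let `λ = H U / T`, and let `y` be any number between a power of `log T` and a small
power of `λ`.

Unconditionally, in mean square over all the shift vectors `(a, b) ∈ [0, U]^(2k)` the zeta function may be replaced by its
partial sum of length `N`, `y ≤ N ≤ y^(6k+48)`, with a relative error of at most `1/y`: the average only depends on the
correlations `∫ v(t) (n/m)^(it) dμ(t)` of the weighted measure with the rational numbers whose height is at most a power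
of `y`. If the sum of the squares of these correlations, `m ≠ n`, with the weights `d_k(m) d_k(n) / (m n)`, is small, then
for almost all shift vectors the average is the diagonal term of the recipe of Conrey, Farmer, Keating, Rubinstein and
Snaith times `∫ v dμ`. The points `t` for which the second moment of zeta over `[t, t + U]` is too large are left out; they
have small mass for every such measure, and there are none if `U ≥ T^(1/2)`.

For the proof, the difference of zeta and the partial sum is an operator from `L²(μ)` to `L²([0, U])` of small norm: this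
follows from the large sieve inequality for `μ` (from Sobolev's inequality on intervals of length one), its dual, and the
mean value theorem over the shift.
-/

namespace Pool.Agent.Results.MP_56b8f5_nt.ArbitraryMeasures

open Complex MeasureTheory Set

noncomputable section

variable {k : ℕ}

/-- The divisor function `τ_l(n)`: the sum over `d_1 d_2 ⋯ d_k = n` of `∏ j, d_j ^ l_j`. -/
def tau (l : Fin k → ℂ) (n : ℕ) : ℂ :=
  ∑ d ∈ Nat.finMulAntidiag k n, ∏ j, (d j : ℂ) ^ (l j)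

/-- The Euler factor of `F(a, b)` at the prime `p`. -/
def localFactor (a b : Fin k → ℝ) (p : ℕ) : ℂ :=
  (∏ j, ∏ l, (1 - (p : ℂ) ^ (-(1 + I * a j - I * b l)))) *
    ∑' m : ℕ, tau (fun j => I * b j) (p ^ m) * tau (fun j => -(I * a j)) (p ^ m) * (p : ℂ) ^ (-(m : ℂ))

/-- The arithmetic factor `F(a, b)`, an Euler product. -/
def arithF (a b : Fin k → ℝ) : ℂ := ∏' p : Nat.Primes, localFactor a b p

/-- The diagonal term `ζ_{(a, b)}(1/2) = F(a, b) ∏_{j,l} ζ(1 + i a_j - i b_l)` of the recipe. -/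
def diagonal (a b : Fin k → ℝ) : ℂ :=
  arithF a b * ∏ j, ∏ l, riemannZeta (1 + I * a j - I * b l)

/-- The product `∏_j ζ(1/2 + i(t + a_j)) ζ(1/2 - i(t + b_j))` for `γ = (a, b)`, indexed by `Fin k ⊕ Fin k`. -/
def Z (γ : Fin k ⊕ Fin k → ℝ) (t : ℝ) : ℂ :=
  ∏ j : Fin k, riemannZeta (1 / 2 + I * (t + γ (Sum.inl j))) *
    riemannZeta (1 / 2 - I * (t + γ (Sum.inr j)))

/-- The partial sum `∑_{n ≤ N} n^(-s)` of zeta. -/
def partialSum (N : ℕ) (s : ℂ) : ℂ := ∑ n ∈ Finset.Icc 1 N, (n : ℂ) ^ (-s)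

/-- The same product with partial sums in place of zeta. -/
def ZN (N : ℕ) (γ : Fin k ⊕ Fin k → ℝ) (t : ℝ) : ℂ :=
  ∏ j : Fin k, partialSum N (1 / 2 + I * (t + γ (Sum.inl j))) *
    partialSum N (1 / 2 - I * (t + γ (Sum.inr j)))

/-- The regular points `t`: the mean value of `|ζ(1/2 + iu)|²` over `t ≤ u ≤ t + U` is at most `V`. -/
def regular (U V : ℝ) : Set ℝ :=
  {t | ∫ u in t..(t + U), ‖riemannZeta (1 / 2 + I * u)‖ ^ 2 ≤ U * V}

/-- `μ` is concentrated on `[T, T + H]` and has mass at most `K` on every interval of length one. -/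
structure IsSpread (T H K : ℝ) (μ : Measure ℝ) : Prop where
  support : μ (Icc T (T + H))ᶜ = 0
  unit : ∀ x : ℝ, μ (Icc x (x + 1)) ≤ ENNReal.ofReal K

/-- `v` is measurable, and bounded on `[T, T + H]` (the bound does not enter the results). -/
def IsWeight (T H : ℝ) (v : ℝ → ℂ) : Prop :=
  Measurable v ∧ ∃ M : ℝ, ∀ t ∈ Icc T (T + H), ‖v t‖ ≤ M

/-- `K H ∫ |v|² dμ`, an upper bound for `|∫ v dμ|²` up to a constant. -/
def energy (H K : ℝ) (μ : Measure ℝ) (v : ℝ → ℂ) : ℝ := K * H * ∫ t, ‖v t‖ ^ 2 ∂μ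

/-- The correlation `∫ v(t) (n/m)^(it) dμ(t)`. -/
def correlation (μ : Measure ℝ) (v : ℝ → ℂ) (m n : ℕ) : ℂ := ∫ t, v t * ((n : ℂ) / m) ^ (I * t) ∂μ

/-- The number `d_k(n)` of ordered factorisations of `n` into `k` factors. -/
def divisorCount (k n : ℕ) : ℕ := (Nat.finMulAntidiag k n).card

/-- The sum over `1 ≤ m, n ≤ X`, `m ≠ n`, of `d_k(m) d_k(n) / (m n) |∫ v(t) (n/m)^(it) dμ(t)|²`. -/
def offDiagonal (k : ℕ) (μ : Measure ℝ) (v : ℝ → ℂ) (X : ℝ) : ℝ :=
  ∑ m ∈ Finset.Icc 1 ⌊X⌋₊, ∑ n ∈ (Finset.Icc 1 ⌊X⌋₊).erase m,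
    (divisorCount k m : ℝ) * divisorCount k n / (m * n) * ‖correlation μ v m n‖ ^ 2

/-- The cube `[0, U]^(2k)` of the shift vectors. -/
def cube (k : ℕ) (U : ℝ) : Set (Fin k ⊕ Fin k → ℝ) := {γ | ∀ i, 0 ≤ γ i ∧ γ i ≤ U}

open Pool.Agent.TH612.CF in
lemma diagonal_eq (a b : Fin k → ℝ) :
    diagonal a b = zab (fun j => (a j : ℂ)) (fun j => (b j : ℂ)) := by
  unfold diagonal zab arithF FH
  congr 1
  refine tprod_congr fun p => ?_
  unfold localFactor lh lt
  congr 1
  refine tsum_congr fun m => ?_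
  have e : ((p : ℕ) : ℂ) ^ (-(m : ℂ)) = (((p : ℕ) : ℂ) ^ m)⁻¹ := by
    rw [Complex.cpow_neg, Complex.cpow_natCast]
  rw [e]
  rfl

lemma Z_eq (γ : Fin k ⊕ Fin k → ℝ) (t : ℝ) :
    Z γ t = ∏ i, Pool.Agent.N879.PU.fs Pool.Agent.TH612.GS.z i (t + γ i) := by
  rw [Pool.Agent.N879.PU.fs_prod]
  have h := Pool.Agent.TH612.GS.Zg_fz γ t
  rw [← h]
  rfl

lemma ZN_eq (N : ℕ) (γ : Fin k ⊕ Fin k → ℝ) (t : ℝ) :
    ZN N γ t = ∏ i, Pool.Agent.N879.PU.fs (Pool.Agent.TH612.GS.PN N) i (t + γ i) := by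
  rw [Pool.Agent.N879.PU.fs_prod]
  unfold ZN
  refine Finset.prod_congr rfl fun j _ => ?_
  congr 1
  · unfold partialSum Pool.Agent.TH612.GS.PN Pool.Agent.TH612.GS.zN
    refine Finset.sum_congr rfl fun n _ => ?_
    congr 1
    push_cast
    ring
  · unfold partialSum Pool.Agent.TH612.GS.PN Pool.Agent.TH612.GS.zN
    rw [map_sum]
    refine Finset.sum_congr rfl fun n hn => ?_
    have hn1 := (Finset.mem_Icc.1 hn).1
    rw [Pool.Agent.TH509.GS.cpow_exp hn1, Pool.Agent.TH509.GS.cpow_exp hn1, ← Complex.exp_conj]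
    congr 1
    simp only [map_mul, map_neg, map_add, map_div₀, map_one, Complex.conj_ofReal, Complex.conj_I, map_ofNat]
    push_cast
    ring

lemma corr_eq (μ : Measure ℝ) (v : ℝ → ℂ) {m n : ℕ} (hm : 1 ≤ m) (hn : 1 ≤ n) :
    correlation μ v m n = Pool.Agent.J4.H35.AM.cor μ v m n := by
  unfold correlation Pool.Agent.J4.H35.AM.cor
  refine integral_congr_ae (Filter.Eventually.of_forall fun t => ?_)
  simp only
  congr 1
  have hm0 : (0 : ℝ) < m := by exact_mod_cast hm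
  have hn0 : (0 : ℝ) < n := by exact_mod_cast hn
  have e1 : ((n : ℂ) / m) = (((n : ℝ) / m : ℝ) : ℂ) := by push_cast; rfl
  have h0 : (((n : ℝ) / m : ℝ) : ℂ) ≠ 0 := by exact_mod_cast (div_pos hn0 hm0).ne'
  rw [e1, Complex.cpow_def_of_ne_zero h0, ← Complex.ofReal_log (div_pos hn0 hm0).le,
    Real.log_div hn0.ne' hm0.ne']
  congr 1
  ring

lemma off_eq (k : ℕ) (μ : Measure ℝ) (v : ℝ → ℂ) (X : ℝ) :
    offDiagonal k μ v X = Pool.Agent.J4.H35.AM.offD k μ v ⌊X⌋₊ := by
  unfold offDiagonal Pool.Agent.J4.H35.AM.offD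
  refine Finset.sum_congr rfl fun m hm => Finset.sum_congr rfl fun n hn => ?_
  rw [corr_eq μ v (Finset.mem_Icc.1 hm).1 (Finset.mem_Icc.1 (Finset.mem_of_mem_erase hn)).1]
  rfl

/-- For every `k` there are `δ > 0`, `C₀` and `T₀` such that the following holds for all `T ≥ T₀`, all `H, U ≤ T`, all
`y` with `(log T)^C₀ ≤ y ≤ (H U / T)^δ`, all `K ≥ 0` and every measure `μ` on `[T, T + H]` with mass at most `K` on every
interval of length one.
(0) The points at which the mean value of `|ζ|²` over `[t, t + U]` exceeds `y³` have mass at most `K H / y`, and mass zero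
if `U ≥ T^(1/2)`. Let `v` be a weight, and `Q = K H ∫ |v|² dμ`.
(1) For some `N` between `y` and `y^(6k+48)` the integral over the regular points of `v Z γ` is, in mean square over the
shift vectors `γ` in `[0, U]^(2k)`, the integral of `v ZN N γ`, up to an error of at most `Q / y` in the mean square.
(2) Let `0 < ε`, `ε⁴ ≥ 1 / y`, and let the sum of `d_k(m) d_k(n) / (m n) |∫ v(t) (n/m)^(it) dμ|²` over all `m ≠ n` up to
`y^(k (6k+48))` be at most `ε³ Q / 100`. Then for all shift vectors `γ = (a, b)` outside a set of measure at most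
`ε U^(2k)` the integral over the regular points of `v Z γ` is `diagonal a b` times `∫ v dμ`, with an error of at most
`ε Q^(1/2)`. -/
theorem result (k : ℕ) : ∃ δ C₀ T₀ : ℝ, 0 < δ ∧ ∀ T H U K y : ℝ, T₀ ≤ T → 0 < H → H ≤ T → 0 < U → U ≤ T →
    Real.log T ^ C₀ ≤ y → y ≤ (H * U / T) ^ δ → 0 ≤ K → ∀ μ : Measure ℝ, IsSpread T H K μ →
    (μ (regular U (y ^ 3))ᶜ ≤ ENNReal.ofReal (K * H / y) ∧
      (T ^ (1 / 2 : ℝ) ≤ U → μ (regular U (y ^ 3))ᶜ = 0)) ∧
    ∀ v : ℝ → ℂ, IsWeight T H v →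
    (∃ N : ℕ, y ≤ N ∧ (N : ℝ) ≤ y ^ (6 * k + 48) ∧
      ∫⁻ γ in cube k U, ENNReal.ofReal (‖(∫ t in regular U (y ^ 3), v t * Z γ t ∂μ) -
        ∫ t, v t * ZN N γ t ∂μ‖ ^ 2) ≤ ENNReal.ofReal (U ^ (2 * k) / y * energy H K μ v)) ∧
    ∀ ε : ℝ, 1 ≤ y * ε ^ 4 → 0 < ε →
      100 * offDiagonal k μ v (y ^ (k * (6 * k + 48))) ≤ ε ^ 3 * energy H K μ v →
      volume {γ : Fin k ⊕ Fin k → ℝ | γ ∈ cube k U ∧ ε * √(energy H K μ v) <
        ‖(∫ t in regular U (y ^ 3), v t * Z γ t ∂μ) -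
          (∫ t, v t ∂μ) * diagonal (fun j => γ (Sum.inl j)) (fun j => γ (Sum.inr j))‖} ≤
        ENNReal.ofReal (ε * U ^ (2 * k)) := by
  obtain ⟨δ, C₀, T₀, hδ, h⟩ := Pool.Agent.J4.H35.AM.main k
  refine ⟨δ, C₀, T₀, hδ, fun T H U K y hT hH hHT hU hUT hy1 hy2 hK μ hμ => ?_⟩
  obtain ⟨h0, h1⟩ := h T H U K y hT hH hHT hU hUT hy1 hy2 hK μ ⟨hμ.support, hμ.unit⟩
  refine ⟨h0, fun v hv => ?_⟩
  obtain ⟨⟨N, hN1, hN2, h2⟩, h3⟩ := h1 v hv
  have hcube : cube k U = univ.pi fun _ => Icc 0 U := by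
    ext γ
    exact ⟨fun h i _ => h i, fun h i => h i trivial⟩
  refine ⟨⟨N, hN1, hN2, ?_⟩, fun ε hε hε0 hD => ?_⟩
  · rw [hcube, ← Pool.Agent.TH612.GS.mP_eq]
    simp only [Z_eq, ZN_eq]
    exact h2
  · rw [off_eq] at hD
    rw [Pool.Agent.TH612.GS.vol_cube (T := U) fun γ hγ => hγ.1]
    refine (measure_mono ?_).trans (h3 ε hε hε0 hD)
    rintro γ ⟨_, hγ⟩
    simp only [diagonal_eq, Z_eq] at hγ
    exact hγ

end

end Pool.Agent.Results.MP_56b8f5_nt.ArbitraryMeasures
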