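import Pool.Agent.J4.H39.HM.Lead

/-!
# MP_56b8f5_nt: products of `n ≥ 4` values of `|ζ|²` on rational hyperplanes

Let `n = r + 4 ≥ 4`, let `a₀, …, a_{n-1}` be coprime nonzero integers and `v₀, …, v_{n-1}` positive reals with
`∑ aᵢ vᵢ = 0`. The points `(t₀, …, t_{n-1})` of the hyperplane `∑ aᵢ tᵢ = 0` near the ray of direction `v` are

  `t₁ = v₁ t`, `t_{j+2} = v_{j+2} t + h_j` (`0 ≤ j ≤ n - 3`), `t₀ = v₀ t - (∑ⱼ a_{j+2} h_j) / a₀`.

The integral of `∏ |ζ(1/2 + i tᵢ)|²` over them, `T₁ ≤ t ≤ T₂` and `|h_j| ≤ H`, is evaluated with the full main term and a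
power saving, uniformly for `T ≤ T₁ ≤ T₂ ≤ 2T` and `T^(1/2+κ) ≤ H ≤ T^(1-κ)`.
The leading coefficient of the main term is `ζ(s)²/ζ(2s)`, `s = (∑ |aᵢ|)/2`.

Example: `a = (1, 1, -1, -1)`, `v = (1, 1, 1, 1)` is the mean over parallelograms `t, t + h, t + h', t + h + h'`,
with `s = 2` and `ζ(2)²/ζ(4) = 5/2`.
-/

set_option autoImplicit false

namespace Pool.Agent.Results.MP_56b8f5_nt.MomentsOnHyperplanes

open MeasureTheory Set Topology Filter Complex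

/-- `|ζ(1/2 + it)|²` -/
noncomputable def Z (t : ℝ) : ℝ := ‖riemannZeta (1 / 2 + I * t)‖ ^ 2

/-- `s = (∑ |aᵢ|)/2` -/
noncomputable def s {n : ℕ} (a : Fin n → ℤ) : ℝ := (∑ i, |(a i : ℝ)|) / 2

/-- the main term: the sum over the coprime pairs of positive integers `(p, q)` of
`(pq)^(-s) ∏ (log(vᵢ t/2π) + 2γ - |aᵢ| log(pq))` -/
noncomputable def P {n : ℕ} (a : Fin n → ℤ) (v : Fin n → ℝ) (t : ℝ) : ℝ :=
  ∑' p : ℕ × ℕ, if 0 < p.1 ∧ 0 < p.2 ∧ Nat.Coprime p.1 p.2 then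
    ((p.1 : ℝ) * p.2) ^ (-(s a)) * ∏ i, (Real.log (v i * t / (2 * Real.pi)) + 2 * Real.eulerMascheroniConstant -
      |(a i : ℝ)| * Real.log ((p.1 : ℝ) * p.2)) else 0

/-- the integral of the product of the values of `|ζ|²` over the hyperplane -/
noncomputable def J {r : ℕ} (a : Fin (r + 4) → ℤ) (v : Fin (r + 4) → ℝ) (T₁ T₂ H : ℝ) : ℝ :=
  ∫ t in Icc T₁ T₂, ∫ h in Icc (fun _ : Fin (r + 2) => -H) (fun _ => H),
    Z (v 1 * t) * (∏ j : Fin (r + 2), Z (v j.succ.succ * t + h j)) *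
      Z (v 0 * t - (∑ j : Fin (r + 2), (a j.succ.succ : ℝ) * h j) / a 0)

open Pool.Agent.J4.H39.HM in
lemma s_eq {m : ℕ} (a : Fin (m + 1) → ℤ) : s a = sx a := by
  unfold s sx
  congr 1
  refine Finset.sum_congr rfl fun i _ => ?_
  rw [Nat.cast_natAbs, Int.cast_abs]

open Pool.Agent.J4.H39.HM in
lemma P_eq {m : ℕ} (a : Fin (m + 1) → ℤ) (ha : 3 / 2 ≤ sx a) (v : Fin (m + 1) → ℝ) (t : ℝ) : P a v t = MT a v t := by
  unfold P MT
  refine tsum_congr fun p => ?_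
  rw [s_eq]
  have e1 : Pool.Agent.Y969.GP.ht p = (p.1 : ℝ) * p.2 := rfl
  rw [e1]
  by_cases h1 : 0 < p.1
  · by_cases h2 : 0 < p.2
    · by_cases h3 : Nat.Coprime p.1 p.2
      · rw [if_pos ⟨h1, h2, h3⟩, if_pos h3]
        congr 1
        refine Finset.prod_congr rfl fun i _ => ?_
        rw [Nat.cast_natAbs, Int.cast_abs]
      · rw [if_neg (fun h => h3 h.2.2), if_neg h3]
    · have h2' : p.2 = 0 := by omega
      rw [if_neg (fun h => h2 h.2.1), h2', Nat.cast_zero, mul_zero, Real.zero_rpow (by linarith), zero_mul, ite_self]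
  · have h1' : p.1 = 0 := by omega
    rw [if_neg (fun h => h1 h.1), h1', Nat.cast_zero, zero_mul, Real.zero_rpow (by linarith), zero_mul, ite_self]

/-- **Moments of `|ζ|²` on rational hyperplanes of `ℝⁿ`, `n ≥ 4`.** -/
theorem result {r : ℕ} (a : Fin (r + 4) → ℤ) (ha : ∀ i, a i ≠ 0) (hk : ∃ k : Fin (r + 4) → ℤ, ∑ i, k i * a i = 1)
    (v : Fin (r + 4) → ℝ) (hv : ∀ i, 0 < v i) (hav : ∑ i, (a i : ℝ) * v i = 0) :
    (∀ κ : ℝ, 0 < κ → ∃ c C : ℝ, 0 < c ∧ ∀ᶠ T : ℝ in atTop, ∀ H T₁ T₂ : ℝ,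
      T ^ (1 / 2 + κ) ≤ H → H ≤ T ^ (1 - κ) → T ≤ T₁ → T₁ ≤ T₂ → T₂ ≤ 2 * T →
      |J a v T₁ T₂ H - (2 * H) ^ (r + 2) * ∫ t in Icc T₁ T₂, P a v t| ≤ C * T ^ (1 - c) * H ^ (r + 2)) ∧
    Tendsto (fun t : ℝ => ((P a v t / (Real.log t) ^ (r + 4) : ℝ) : ℂ)) atTop
      (𝓝 (riemannZeta (s a) ^ 2 / riemannZeta (2 * s a))) := by
  have hs := Pool.Agent.J4.H39.HM.sx_ge ha
  constructor
  · intro κ hκ
    obtain ⟨c, C, hc, -, h⟩ := Pool.Agent.J4.H39.HM.main' ha hk hv hav hκ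
    refine ⟨c, C, hc, ?_⟩
    filter_upwards [h] with T h H T₁ T₂ h1 h2 h3 h4 h5
    have h6 := h H T₁ T₂ h1 h2 h3 h4 h5
    have e1 : (∫ t in Icc T₁ T₂, P a v t) = ∫ t in Icc T₁ T₂, Pool.Agent.J4.H39.HM.MT (m := r + 3) a v t := by
      refine integral_congr_ae (Eventually.of_forall fun t => ?_)
      exact P_eq (m := r + 3) a hs v t
    rw [e1, mul_assoc]
    exact h6
  · have h1 := Pool.Agent.J4.H39.HM.MT_lim (m := r + 3) hs hv
    have h2 := (Complex.continuous_ofReal.tendsto _).comp h1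
    rw [Pool.Agent.J4.H39.HM.cop_sum (by linarith), ← s_eq] at h2
    refine h2.congr fun t => ?_
    simp only [Function.comp_apply]
    rw [P_eq (m := r + 3) a hs v t]

end Pool.Agent.Results.MP_56b8f5_nt.MomentsOnHyperplanes
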