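import Pool.Agent.J4.H63.TS.K8

set_option autoImplicit false

/-!
# The moments of zeta over sets that are thick, or sparse, at the scale `1 / log T`

The measure `|ζ(1/2+it)|^(2k) dt` is compared with its restriction to a measurable set `E`. Only the density of `E` in the
intervals of length `A / log T`, with `A` fixed, matters.
-/

namespace Pool.Agent.Results.MP_56b8f5_nt.ThickSets

open Complex MeasureTheory Set Filter

noncomputable section

/-- `|ζ(1/2+it)|^(2k)` -/
def zetaPow (k : ℕ) (t : ℝ) : ℝ := ‖riemannZeta (1 / 2 + t * I)‖ ^ (2 * k)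

/-- The set `E` has density at least `γ` in every interval of length `h` contained in `[a, b]`. -/
def ThickIn (E : Set ℝ) (a b h γ : ℝ) : Prop :=
  ∀ y : ℝ, a ≤ y → y + h ≤ b → ENNReal.ofReal (γ * h) ≤ volume (E ∩ Icc y (y + h))

/-- The set `E` has density at most `δ` in every interval of length `h` contained in `[a, b]`. -/
def SparseIn (E : Set ℝ) (a b h δ : ℝ) : Prop :=
  ∀ y : ℝ, a ≤ y → y + h ≤ b → volume (E ∩ Icc y (y + h)) ≤ ENNReal.ofReal (δ * h)

/-- (1) For all `k, A, γ` there is `c > 0` such that for every `B`, every large `X`, all `a, b` with `0 ≤ a`,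
`a + 5 log X ≤ b ≤ X`, and every measurable set `E` of density at least `γ` in each interval of length `A / log X` of
`[a, b]`, the integral of `|ζ(1/2+it)|^(2k)` over `E ∩ [a, b]` is at least `c` times the integral over
`[a + 2 log X, b - 2 log X]`, up to `X^(-B)`.
(2) For all `k, A, B`, every large `X` and all `a, b` as before, and every measurable set `E` of density at most `δ` in
each interval of length `A / log X` of `[a, b]`, the integral of `|ζ(1/2+it)|^(2k)` over
`E ∩ [a + 2 log X, b - 2 log X]` is at most `32 (1 + (k+1)² A²) δ` times the integral over `[a, b]`, up to `δ X^(-B)`.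
(3) For all `A, γ` and `α < 1/2` there is `c > 0` such that for all large `T`, every interval `[U, U + H]` of `[0, T]`
with `H ≥ T / (log T)^α` and every measurable set `E` of density at least `γ` in each interval of length `A / log T` of
`[U, U + H]`, the integral of `|ζ(1/2+it)|^8` over `E ∩ [U, U + H]` is at least `c H (log T)^16`. -/
theorem result :
    (∀ (k : ℕ) (A γ : ℝ), 0 < A → 0 < γ → ∃ c : ℝ, 0 < c ∧ ∀ B : ℝ, 0 ≤ B →
      ∃ X₀ : ℝ, 3 ≤ X₀ ∧ ∀ X : ℝ, X₀ ≤ X → ∀ a b : ℝ, 0 ≤ a → a + 5 * Real.log X ≤ b → b ≤ X →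
        ∀ E : Set ℝ, MeasurableSet E → ThickIn E a b (A / Real.log X) γ →
          c * (∫ t in (a + 2 * Real.log X)..(b - 2 * Real.log X), zetaPow k t) - X ^ (-B) ≤
            ∫ t in E ∩ Icc a b, zetaPow k t) ∧
    (∀ (k : ℕ) (A : ℝ), 0 < A → ∀ B : ℝ, 0 ≤ B →
      ∃ X₀ : ℝ, 3 ≤ X₀ ∧ ∀ X : ℝ, X₀ ≤ X → ∀ a b : ℝ, 0 ≤ a → a + 5 * Real.log X ≤ b → b ≤ X →
        ∀ δ : ℝ, 0 ≤ δ → ∀ E : Set ℝ, MeasurableSet E → SparseIn E a b (A / Real.log X) δ →
          ∫ t in E ∩ Icc (a + 2 * Real.log X) (b - 2 * Real.log X), zetaPow k t ≤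
            32 * (1 + ((k + 1) * A) ^ 2) * δ * (∫ t in a..b, zetaPow k t) + δ * X ^ (-B)) ∧
    (∀ A γ α : ℝ, 0 < A → 0 < γ → 0 ≤ α → α < 1 / 2 → ∃ c : ℝ, 0 < c ∧ ∀ᶠ T : ℝ in atTop,
      ∀ U H : ℝ, 0 ≤ U → U + H ≤ T → T / Real.log T ^ α ≤ H →
        ∀ E : Set ℝ, MeasurableSet E → ThickIn E U (U + H) (A / Real.log T) γ →
          c * H * Real.log T ^ 16 ≤ ∫ t in E ∩ Icc U (U + H), ‖riemannZeta (1 / 2 + t * I)‖ ^ 8) :=
  ⟨fun k _ _ hA hγ => Pool.Agent.J4.H63.TS.thick k hA hγ,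
    fun k _ hA => Pool.Agent.J4.H63.TS.sparse k hA,
    fun _ _ _ hA hγ hα0 hα => Pool.Agent.J4.H63.TS.eighth_thick hA hγ hα0 hα⟩

end

end Pool.Agent.Results.MP_56b8f5_nt.ThickSets
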